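import Pool.Agent.Ben.Asm10
import Pool.Agent.Ben.Asm12
import Pool.Agent.Ben.Asm3
import Pool.Agent.Ben.Asm5
import Pool.Agent.Ben.Asm6
import Pool.Agent.Ben.Asm8
import Pool.Agent.Ben.P_ADMP
import Pool.Agent.Ben.P_BENU
import Pool.Agent.Ben.P_ET
import Pool.Agent.Ben.P_FORM
import Pool.Agent.Ben.P_FWD
import Pool.Agent.Ben.P_GDIGB
import Pool.Agent.Ben.P_GHIGH
import Pool.Agent.Ben.P_GITER
import Pool.Agent.Ben.P_GL1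
import Pool.Agent.Ben.P_GLH
import Pool.Agent.Ben.P_GMS
import Pool.Agent.Ben.P_GONE
import Pool.Agent.Ben.P_GSTEP
import Pool.Agent.Ben.P_GSUML
import Pool.Agent.Ben.P_INT
import Pool.Agent.Ben.P_INV
import Pool.Agent.Ben.P_KB
import Pool.Agent.Ben.P_LEN
import Pool.Agent.Ben.P_LENF
import Pool.Agent.Ben.P_LENL
import Pool.Agent.Ben.P_LENU
import Pool.Agent.Ben.P_LFOU
import Pool.Agent.Ben.P_LGA
import Pool.Agent.Ben.P_LGB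
import Pool.Agent.Ben.P_LITER
import Pool.Agent.Ben.P_LKER
import Pool.Agent.Ben.P_LL1
import Pool.Agent.Ben.P_LMAIN
import Pool.Agent.Ben.P_LMEAN
import Pool.Agent.Ben.P_LSTEP
import Pool.Agent.Ben.P_MANT
import Pool.Agent.Ben.P_MEL
import Pool.Agent.Ben.P_MFAR
import Pool.Agent.Ben.P_MGF
import Pool.Agent.Ben.P_MHIGH
import Pool.Agent.Ben.P_MITER
import Pool.Agent.Ben.P_ML1
import Pool.Agent.Ben.P_MLHK
import Pool.Agent.Ben.P_MMS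
import Pool.Agent.Ben.P_MMSA
import Pool.Agent.Ben.P_MONE
import Pool.Agent.Ben.P_MSTEP
import Pool.Agent.Ben.P_NFWD
import Pool.Agent.Ben.P_NONE
import Pool.Agent.Ben.P_NSM
import Pool.Agent.Ben.P_NZA
import Pool.Agent.Ben.P_NZB
import Pool.Agent.Ben.P_PHI
import Pool.Agent.Ben.P_POLE
import Pool.Agent.Ben.P_RB
import Pool.Agent.Ben.P_SAVG
import Pool.Agent.Ben.P_SAW
import Pool.Agent.Ben.P_SBV
import Pool.Agent.Ben.P_SCP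
import Pool.Agent.Ben.P_SCQ
import Pool.Agent.Ben.P_SDB
import Pool.Agent.Ben.P_SDG
import Pool.Agent.Ben.P_SDP
import Pool.Agent.Ben.P_SDQ
import Pool.Agent.Ben.P_SEP
import Pool.Agent.Ben.P_SEQ
import Pool.Agent.Ben.P_SFORM
import Pool.Agent.Ben.P_SGK
import Pool.Agent.Ben.P_SHF
import Pool.Agent.Ben.P_SHOL
import Pool.Agent.Ben.P_SPT
import Pool.Agent.Ben.P_STR
import Pool.Agent.Ben.P_SUM
import Pool.Agent.Ben.P_SXI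
import Pool.Agent.Ben.P_SZK
import Pool.Agent.Ben.P_SZP
import Pool.Agent.Ben.P_SZQ
import Pool.Agent.Ben.P_TAIL
import Pool.Agent.Ben.P_VALL
import Pool.Agent.Ben.P_VDIG
import Pool.Agent.Ben.P_VERR
import Pool.Agent.Ben.P_VERZ
import Pool.Agent.Ben.P_VFOU
import Pool.Agent.Ben.P_VKOKG
import Pool.Agent.Ben.P_VMAIN
import Pool.Agent.Ben.P_VMEAN
import Pool.Agent.Ben.P_VNAR
import Pool.Agent.Ben.P_VUNIQ
import Pool.Agent.Ben.P_WCOEF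
import Pool.Agent.Ben.P_WDIGB
import Pool.Agent.Ben.P_WEXPS
import Pool.Agent.Ben.P_WHIGH
import Pool.Agent.Ben.P_WITER
import Pool.Agent.Ben.P_WL1
import Pool.Agent.Ben.P_WLH
import Pool.Agent.Ben.P_WONE
import Pool.Agent.Ben.P_WSMO
import Pool.Agent.Ben.P_WSTEP
import Pool.Agent.Ben.P_WSUML
import Pool.Agent.Ben.P_WTRIV
import Pool.Agent.Ben.P_XSTB
import Pool.Agent.Ben.P_XSTF

/-!
# The growth of zeta and Benford's law for the powers `1 ^ x, 2 ^ x, …, N ^ x`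
-/

set_option autoImplicit false

open Complex MeasureTheory Set

namespace Pool.Agent.Results.MP_4e5e8a_nt.BenfordLindelof

/-- `ζ(s + it) = O((1 + |t|) ^ (a + ε))` for every `ε > 0`; the case `s = 1/2`, `a = 0` is the
Lindelöf hypothesis -/
def ZetaGrowth (s a : ℝ) : Prop :=
  ∀ ε : ℝ, 0 < ε → ∃ C : ℝ, ∀ t : ℝ, ‖riemannZeta (s + t * I)‖ ≤ C * (1 + |t|) ^ (a + ε)

/-- growth of zeta on the line `Re = s` in the mean of order `q`: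
`(1/T ∫_T^{2T} |ζ(s + it)|^q dt)^(1/q) = O(T^(a + ε))` for every `ε > 0` -/
def ZetaMean (q s a : ℝ) : Prop :=
  ∀ ε : ℝ, 0 < ε → ∃ C : ℝ, ∀ T : ℝ, 1 ≤ T →
    ∫ t in T..(2 * T), ‖riemannZeta (s + t * I)‖ ^ q ≤ C * T ^ (1 + q * (a + ε))

/-! ### the polynomial with the zeros `n ^ (-i t)`, `1 < n ≤ N` -/

/-- `∏_{1 < n ≤ N} |1 - z n ^ (i t)| ≤ exp (C N ^ s t ^ (a + ε))` for `1 ≤ N ≤ t ^ β` -/
def ProductBound (z : ℂ) (β s a : ℝ) : Prop :=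
  ∀ ε : ℝ, 0 < ε → ∃ C : ℝ, ∀ t : ℝ, 1 ≤ t → ∀ N : ℕ, 1 ≤ N → (N : ℝ) ≤ t ^ β →
    ∏ n ∈ Finset.Icc 2 N, ‖1 - z * (n : ℂ) ^ (t * I : ℂ)‖ ≤
      Real.exp (C * (N : ℝ) ^ s * t ^ (a + ε))

/-- `∏_{1 < n ≤ N} |1 - z n ^ (i t)| ≤ exp (C N ^ s t ^ ε)` for `1 ≤ N ≤ t`, uniformly for
`|z| ≤ 1` -/
def ProductLaw (s : ℝ) : Prop :=
  ∀ ε : ℝ, 0 < ε → ∃ C : ℝ, ∀ z : ℂ, ‖z‖ ≤ 1 → ∀ t : ℝ, 1 ≤ t → ∀ N : ℕ, 1 ≤ N → (N : ℝ) ≤ t →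
    ∏ n ∈ Finset.Icc 2 N, ‖1 - z * (n : ℂ) ^ (t * I : ℂ)‖ ≤ Real.exp (C * (N : ℝ) ^ s * t ^ ε)

/-! ### statistics of the mantissas: functions of `log_g (n ^ x)` of period one -/

/-- the deviation of `∑ f (log_g (n ^ x))`, `n = 1, …, N`, from its value in Benford's law in
base `g` -/
noncomputable def dev (g : ℝ) (f : ℝ → ℝ) (x : ℝ) (N : ℕ) : ℝ :=
  ∑ n ∈ Finset.Icc 1 N, f (Real.logb g ((n : ℝ) ^ x)) - N * ∫ u in (0 : ℝ)..1, f u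

/-- the error term is `O(N ^ s x ^ (a + ε))` for all continuously differentiable statistics -/
def C1Law (g s a : ℝ) : Prop :=
  ∀ ε : ℝ, 0 < ε → ∃ C : ℝ, ∀ (f : ℝ → ℝ) (M : ℝ), ContDiff ℝ 1 f → Function.Periodic f 1 →
    (∀ y, |deriv f y| ≤ M) → ∀ x : ℝ, ∀ N : ℕ, 1 ≤ N → (N : ℝ) ≤ x →
      |dev g f x N| ≤ C * M * (N : ℝ) ^ s * x ^ (a + ε)

/-- the same in the mean of order `q` over `X ≤ x ≤ 2 X` -/
def C1Mean (g q s a : ℝ) : Prop :=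
  ∀ ε : ℝ, 0 < ε → ∃ C : ℝ, ∀ (f : ℝ → ℝ) (M : ℝ), ContDiff ℝ 1 f → Function.Periodic f 1 →
    (∀ y, |deriv f y| ≤ M) → ∀ X : ℝ, 1 ≤ X → ∀ N : ℕ, 1 ≤ N → (N : ℝ) ≤ X →
      ∫ x in X..(2 * X), |dev g f x N| ^ q ≤ C * (M * (N : ℝ) ^ s) ^ q * X ^ (1 + q * (a + ε))

/-- the error term is `O(N ^ s x ^ ε)` for all statistics of bounded variation -/
def BVLaw (g s : ℝ) : Prop :=
  ∀ ε : ℝ, 0 < ε → ∃ C : ℝ, ∀ f : ℝ → ℝ, Function.Periodic f 1 →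
    BoundedVariationOn f (Icc 0 1) → ∀ x : ℝ, ∀ N : ℕ, 1 ≤ N → (N : ℝ) ≤ x →
      |dev g f x N| ≤ C * (eVariationOn f (Icc 0 1)).toReal * (N : ℝ) ^ s * x ^ ε

/-- the same in the mean of order `q` over `X ≤ x ≤ 2 X` -/
def BVMean (g q s : ℝ) : Prop :=
  ∀ ε : ℝ, 0 < ε → ∃ C : ℝ, ∀ f : ℝ → ℝ, Function.Periodic f 1 →
    BoundedVariationOn f (Icc 0 1) → ∀ X : ℝ, 1 ≤ X → ∀ N : ℕ, 1 ≤ N → (N : ℝ) ≤ X →
      ∫ x in X..(2 * X), |dev g f x N| ^ q ≤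
        C * ((eVariationOn f (Icc 0 1)).toReal * (N : ℝ) ^ s) ^ q * X ^ (1 + q * ε)

/-- `f` is a bounded measurable function of period one which is not almost everywhere constant -/
def Statistic (f : ℝ → ℝ) : Prop :=
  Measurable f ∧ Function.Periodic f 1 ∧ (∃ B, ∀ y, |f y| ≤ B) ∧ ¬ (∃ c : ℝ, ∀ᵐ y, f y = c)

/-- the one-sided inequality with the error term `O(N ^ s x ^ (a + ε))` for the single
statistic `f`, only for `N ≤ x ^ β` -/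
def OneSided (g β s a : ℝ) (f : ℝ → ℝ) : Prop :=
  ∀ ε : ℝ, 0 < ε → ∃ C : ℝ, ∀ x : ℝ, 1 ≤ x → ∀ N : ℕ, 1 ≤ N → (N : ℝ) ≤ x ^ β →
    dev g f x N ≤ C * (N : ℝ) ^ s * x ^ (a + ε)

/-- the positive part of the error term is `O(N ^ s X ^ (a + ε))` in the mean of order `q` over
`X ≤ x ≤ 2 X`, for the single statistic `f`, only for `N ≤ X ^ β` -/
def OneSidedMean (g β q s a : ℝ) (f : ℝ → ℝ) : Prop :=
  ∀ ε : ℝ, 0 < ε → ∃ C : ℝ, ∀ X : ℝ, 1 ≤ X → ∀ N : ℕ, 1 ≤ N → (N : ℝ) ≤ X ^ β →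
    ∫ x in X..(2 * X), max (dev g f x N) 0 ^ q ≤ C * (N : ℝ) ^ (s * q) * X ^ (1 + q * (a + ε))

/-! ### decimal digits of the real numbers `n ^ x` -/

/-- the decimal digit number `j` of `y > 0` after the leading one (`j = 0`: the leading digit) -/
noncomputable def digit (j : ℕ) (y : ℝ) : ℕ :=
  ⌊(10 : ℝ) ^ Int.fract (Real.logb 10 y) * 10 ^ j⌋₊ % 10

/-- among `1 ^ x, …, N ^ x` those whose digit number `j` is `d` -/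
noncomputable def digitCount (j d : ℕ) (x : ℝ) (N : ℕ) : ℕ :=
  {n : ℕ | 1 ≤ n ∧ n ≤ N ∧ digit j ((n : ℝ) ^ x) = d}.ncard

/-- the probability of the digit `d` at position `j` in Benford's law -/
noncomputable def digitProb (j d : ℕ) : ℝ :=
  ∑ m ∈ Finset.Ico (10 ^ j) (10 ^ (j + 1)) with m % 10 = d, Real.logb 10 (1 + 1 / m)

/-- Benford's law with error `O(N ^ s x ^ ε)` for the digit `d` at position `j` -/
def DigitLaw (j d : ℕ) (s : ℝ) : Prop :=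
  ∀ ε : ℝ, 0 < ε → ∃ C : ℝ, ∀ x : ℝ, ∀ N : ℕ, 1 ≤ N → (N : ℝ) ≤ x →
    |(digitCount j d x N : ℝ) - N * digitProb j d| ≤ C * (N : ℝ) ^ s * x ^ ε

/-- the same in the mean of order `q` over `X ≤ x ≤ 2 X` -/
def DigitMean (j d : ℕ) (q s : ℝ) : Prop :=
  ∀ ε : ℝ, 0 < ε → ∃ C : ℝ, ∀ X : ℝ, 1 ≤ X → ∀ N : ℕ, 1 ≤ N → (N : ℝ) ≤ X →
    ∫ x in X..(2 * X), |(digitCount j d x N : ℝ) - N * digitProb j d| ^ q ≤
      C * ((N : ℝ) ^ s) ^ q * X ^ (1 + q * ε)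

/-- the upper inequality with exponent `a` for the digit `d` at position `j`, only for
`N ≤ x ^ β` -/
def DigitUpper (j d : ℕ) (β s a : ℝ) : Prop :=
  ∀ ε : ℝ, 0 < ε → ∃ C : ℝ, ∀ x : ℝ, 1 ≤ x → ∀ N : ℕ, 1 ≤ N → (N : ℝ) ≤ x ^ β →
    (digitCount j d x N : ℝ) - N * digitProb j d ≤ C * (N : ℝ) ^ s * x ^ (a + ε)

/-- the lower inequality with exponent `a` for the digit `d` at position `j`, only for
`N ≤ x ^ β` -/
def DigitLower (j d : ℕ) (β s a : ℝ) : Prop :=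
  ∀ ε : ℝ, 0 < ε → ∃ C : ℝ, ∀ x : ℝ, 1 ≤ x → ∀ N : ℕ, 1 ≤ N → (N : ℝ) ≤ x ^ β →
    -(C * (N : ℝ) ^ s * x ^ (a + ε)) ≤ (digitCount j d x N : ℝ) - N * digitProb j d

/-- the upper inequality in the mean of order `q` over `X ≤ x ≤ 2 X` -/
def DigitUpperMean (j d : ℕ) (β q s a : ℝ) : Prop :=
  ∀ ε : ℝ, 0 < ε → ∃ C : ℝ, ∀ X : ℝ, 1 ≤ X → ∀ N : ℕ, 1 ≤ N → (N : ℝ) ≤ X ^ β →
    ∫ x in X..(2 * X), max ((digitCount j d x N : ℝ) - N * digitProb j d) 0 ^ q ≤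
      C * ((N : ℝ) ^ s) ^ q * X ^ (1 + q * (a + ε))

/-- the lower inequality in the mean of order `q` over `X ≤ x ≤ 2 X` -/
def DigitLowerMean (j d : ℕ) (β q s a : ℝ) : Prop :=
  ∀ ε : ℝ, 0 < ε → ∃ C : ℝ, ∀ X : ℝ, 1 ≤ X → ∀ N : ℕ, 1 ≤ N → (N : ℝ) ≤ X ^ β →
    ∫ x in X..(2 * X), max (N * digitProb j d - (digitCount j d x N : ℝ)) 0 ^ q ≤
      C * ((N : ℝ) ^ s) ^ q * X ^ (1 + q * (a + ε))

/-- for one decimal digit `d` at one position `j` (`d ≠ 0` if `j = 0`) and one `β > 1 / 2` one of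
the two one-sided inequalities with the exponents `s` and `a` holds for `N ≤ x ^ β` -/
def OneDigit (s a : ℝ) : Prop :=
  ∃ (j d : ℕ) (β : ℝ), d ≤ 9 ∧ (j = 0 → 1 ≤ d) ∧ 1 / 2 < β ∧
    (DigitUpper j d β s a ∨ DigitLower j d β s a)

/-- the same in the mean of order `q` -/
def OneDigitMean (q s a : ℝ) : Prop :=
  ∃ (j d : ℕ) (β : ℝ), d ≤ 9 ∧ (j = 0 → 1 ≤ d) ∧ 1 / 2 < β ∧
    (DigitUpperMean j d β q s a ∨ DigitLowerMean j d β q s a)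

/-! ### first digits of the integers `n ^ k` -/

/-- the expansion of `m` in base `b` begins with that of `d` (for `d ≥ 1`): deleting the last `j`
digits of `m` leaves `d` -/
def Begins (b d m : ℕ) : Prop := ∃ j : ℕ, m / b ^ j = d

/-- among `1 ^ k, …, N ^ k` those whose expansion in base `b` begins with that of `d` -/
noncomputable def stringCount (b d k N : ℕ) : ℕ :=
  {n : ℕ | 1 ≤ n ∧ n ≤ N ∧ Begins b d (n ^ k)}.ncard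

/-- Benford's law with error `O(√N k ^ ε)` for the first digits of the integers `n ^ k` in
base `b` -/
def StringLaw (b : ℕ) : Prop :=
  ∀ ε : ℝ, 0 < ε → ∃ C : ℝ, ∀ k N d : ℕ, 1 ≤ N → N ≤ k → 1 ≤ d →
    |(stringCount b d k N : ℝ) - N * Real.logb b (1 + 1 / d)| ≤ C * √(N : ℝ) * (k : ℝ) ^ ε

/-- the upper inequality -/
def StringUpper (b : ℕ) : Prop :=
  ∀ ε : ℝ, 0 < ε → ∃ C : ℝ, ∀ k N d : ℕ, 1 ≤ N → N ≤ k → 1 ≤ d →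
    (stringCount b d k N : ℝ) - N * Real.logb b (1 + 1 / d) ≤ C * √(N : ℝ) * (k : ℝ) ^ ε

/-- the lower inequality -/
def StringLower (b : ℕ) : Prop :=
  ∀ ε : ℝ, 0 < ε → ∃ C : ℝ, ∀ k N d : ℕ, 1 ≤ N → N ≤ k → 1 ≤ d →
    -(C * √(N : ℝ) * (k : ℝ) ^ ε) ≤ (stringCount b d k N : ℝ) - N * Real.logb b (1 + 1 / d)

open Pool.Agent.Ben in
theorem result :
    List.TFAE [
      ZetaGrowth (1 / 2) 0,
      ProductLaw (1 / 2),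
      ∃ z : ℂ, z ≠ 0 ∧ ‖z‖ ≤ 1 ∧ ProductBound z 1 (1 / 2) 0,
      ∀ b : ℕ, 2 ≤ b → StringLaw b,
      ∃ b : ℕ, 2 ≤ b ∧ (StringUpper b ∨ StringLower b),
      ∀ Q : ℝ, ∃ q : ℝ, 1 ≤ q ∧ Q ≤ q ∧ OneDigitMean q (1 / 2) 0] ∧
    (∀ s a : ℝ, 1 / 2 ≤ s → s < 1 → 0 ≤ a →
      List.TFAE [
        ZetaGrowth s a,
        ∀ g : ℝ, 1 < g → C1Law g s a,
        ∃ (g β : ℝ) (f : ℝ → ℝ), 1 < g ∧ 1 / 2 < β ∧ Statistic f ∧ OneSided g β s a f,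
        ∀ z : ℂ, ‖z‖ < 1 → ProductBound z 1 s a,
        ∃ (z : ℂ) (β : ℝ), z ≠ 0 ∧ ‖z‖ ≤ 1 ∧ 1 / 2 < β ∧ ProductBound z β s a] ∧
      (OneDigit s a → ZetaGrowth s a)) ∧
    (∀ q s a : ℝ, 1 ≤ q → 1 / 2 ≤ s → s < 1 → 0 ≤ a →
      List.TFAE [
        ZetaMean q s a,
        ∀ g : ℝ, 1 < g → C1Mean g q s a,
        ∃ (g β : ℝ) (f : ℝ → ℝ), 1 < g ∧ 1 / 2 < β ∧ Statistic f ∧ OneSidedMean g β q s a f] ∧
      (OneDigitMean q s a → ZetaMean q s a)) ∧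
    (∀ s : ℝ, 1 / 2 ≤ s → s < 1 →
      List.TFAE [
        ZetaGrowth s 0,
        ∀ g : ℝ, 1 < g → BVLaw g s,
        ∀ j d : ℕ, DigitLaw j d s,
        OneDigit s 0,
        ProductLaw s]) ∧
    (∀ q s : ℝ, 1 ≤ q → 1 / 2 ≤ s → s < 1 →
      List.TFAE [
        ZetaMean q s 0,
        ∀ g : ℝ, 1 < g → BVMean g q s,
        ∀ j d : ℕ, DigitMean j d q s,
        OneDigitMean q s 0]) ∧
    (∀ (k : ℕ) (q s : ℝ), 1 ≤ k → 1 ≤ q → q ≤ 2 * k → 1 / 2 ≤ s → 1 - 1 / (k : ℝ) ≤ s → s < 1 →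
      ZetaMean q s 0) ∧
    ∀ β θ : ℝ, 0 < β → θ < 1 / 2 →
      (∀ z : ℂ, z ≠ 0 → ‖z‖ ≤ 1 → ¬ ProductBound z β θ 0) ∧
      ∀ (g : ℝ) (f : ℝ → ℝ), 1 < g → Statistic f →
        ¬ OneSided g β θ 0 f ∧ ∀ q : ℝ, 1 ≤ q → ¬ OneSidedMean g β q θ 0 f := by
  have hGI : G_ITER := p_GITER (p_GSTEP (p_VMAIN p_VFOU (p_VERR p_VERZ))
    (p_GL1 (p_VMEAN p_VFOU p_VERZ)) (p_GHIGH p_TAIL p_VNAR))
  have hMI : M_ITER := p_MITER (p_MSTEP (p_VMAIN p_VFOU (p_VERR p_VERZ))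
    (p_ML1 (p_VMEAN p_VFOU p_VERZ)) (p_MHIGH p_TAIL p_VNAR))
  obtain ⟨-, -, h3⟩ := assemble3 (p_FORM p_SUM p_INV p_MEL p_RB p_SHF p_KB) p_RB p_POLE
    (p_WEXPS (p_FORM p_SUM p_INV p_MEL p_RB p_SHF p_KB) p_RB p_POLE) (p_WSMO p_WCOEF) p_WTRIV
    p_ET p_FWD p_PHI p_SAW p_MANT p_LEN p_BENU p_LENF p_ADMP p_LENU p_LENL p_INT
    (p_WITER (p_WSTEP (p_VMAIN p_VFOU (p_VERR p_VERZ)) (p_WL1 (p_VMEAN p_VFOU p_VERZ))
      (p_WHIGH p_TAIL p_VNAR))) (p_WSUML p_TAIL) p_WLH p_VUNIQ p_WONE (p_VALL p_VKOKG) p_VDIG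
    p_WDIGB p_XSTF p_XSTB
  have hF : S_FORM := p_SFORM p_SUM p_INV p_MEL p_RB p_SHF p_KB
  have hPT : S_PT := p_SPT p_SXI
  have hZQ : S_ZQ := p_SZQ p_TAIL hPT
  have hZP : S_ZP := p_SZP p_TAIL hPT
  have hEP : S_EP := p_SEP hF p_RB p_POLE
  have hLI : L_ITER := p_LITER (p_LSTEP (p_LMAIN p_LFOU (p_VERR p_VERZ))
    (p_LL1 (p_LKER p_LFOU) (p_LMEAN p_LFOU p_VERZ)) (p_GHIGH p_TAIL p_VNAR))
  obtain ⟨a1, a2, a3⟩ := assembleP p_GONE p_VUNIQ hGI hZP hEP (p_SCP p_WCOEF) p_STR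
    (p_SDP p_PHI p_SAW p_ET) (p_SBV p_VKOKG) (p_SDG p_MANT) p_SDB
  obtain ⟨l1, l2, l3, l4⟩ := assembleN hLI (p_NZA p_LGA p_LGB) p_NZB p_NONE p_NFWD
    (p_NSM p_NZB) hZP hEP p_GMS (fun s a hs hs1 ha => ((a1 s a hs hs1 ha).out 0 1).1)
  obtain ⟨b1, b2, b3, b4⟩ := assembleQ p_MONE p_VUNIQ hMI hZQ
    (p_SEQ hF p_RB p_POLE p_SAVG p_MFAR) (p_SCQ p_WCOEF) p_STR (p_SDQ p_PHI p_SAW p_ET)
    (p_SBV p_VKOKG) (p_SDG p_MANT) p_SDB p_SHOL (p_SZK hZQ p_SGK)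
  have m3 := lh_means p_SHOL p_MLHK (fun h => (h3.out 0 2 |>.1) h) b2
  have hMSA : M_MSA := p_MMSA p_MGF p_MMS
  have h5 : ∀ s : ℝ, 1 / 2 ≤ s → s < 1 → List.TFAE [
      ZetaGrowth s 0,
      ∀ g : ℝ, 1 < g → BVLaw g s,
      ∀ j d : ℕ, DigitLaw j d s,
      OneDigit s 0,
      ProductLaw s] := by
    intro s hs hs1
    have h4 := a3 s hs hs1
    tfae_have 1 ↔ 2 := h4.out 0 1
    tfae_have 1 ↔ 3 := h4.out 0 2
    tfae_have 1 ↔ 4 := h4.out 0 3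
    tfae_have 1 → 5 := l3 s hs hs1
    tfae_have 5 → 1 := fun h => l1 1 1 s 0 one_ne_zero norm_one.le (by norm_num) hs hs1 le_rfl
      (PU_PZ h norm_one.le)
    tfae_finish
  refine ⟨?_, fun s a hs hs1 ha => ⟨?_, a2 s a hs hs1 ha⟩,
    fun q s a hq hs hs1 ha => ⟨?_, b2 q s a hq hs hs1 ha⟩, h5, b3, b4, ?_⟩
  · have h0 : ZetaGrowth (1 / 2) 0 ↔ Lind 0 := zp_half
    tfae_have 1 ↔ 2 := (h5 (1 / 2) le_rfl (by norm_num)).out 0 4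
    tfae_have 2 → 3 := fun h => ⟨1, one_ne_zero, norm_one.le, PU_PZ h norm_one.le⟩
    tfae_have 3 → 1 := fun ⟨z, hz0, hz, h⟩ => l1 z 1 (1 / 2) 0 hz0 hz (by norm_num) le_rfl
      (by norm_num) le_rfl h
    tfae_have 1 ↔ 4 := h0.trans (h3.out 0 4)
    tfae_have 1 ↔ 5 := h0.trans (h3.out 0 5)
    tfae_have 1 ↔ 6 := h0.trans m3
    tfae_finish
  · have h4 := a1 s a hs hs1 ha
    tfae_have 1 → 2 := h4.out 0 1 |>.1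
    tfae_have 2 → 3 := by
      intro h
      obtain ⟨g, β, f, hg, hβ, e1, e2, e3, e4, e5⟩ := (h4.out 1 2 |>.1) h
      exact ⟨g, β, f, hg, hβ, ⟨e1, e2, e3, e4⟩, e5⟩
    tfae_have 3 → 1 := by
      rintro ⟨g, β, f, hg, hβ, ⟨e1, e2, e3, e4⟩, e5⟩
      refine (h4.out 2 0 |>.1) ?_
      exact ⟨g, β, f, hg, hβ, e1, e2, e3, e4, e5⟩
    tfae_have 1 → 4 := fun h z hz => l2 z s a hz hs hs1 ha h
    tfae_have 4 → 5 := fun h => ⟨1 / 2, 1, by norm_num, by norm_num, by norm_num,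
      h (1 / 2) (by norm_num)⟩
    tfae_have 5 → 1 := fun ⟨z, β, hz0, hz, hβ, h⟩ => l1 z β s a hz0 hz hβ hs hs1 ha h
    tfae_finish
  · have h4 := b1 q s a hq hs hs1 ha
    tfae_have 1 → 2 := h4.out 0 1 |>.1
    tfae_have 2 → 3 := by
      intro h
      obtain ⟨g, β, f, hg, hβ, e1, e2, e3, e4, e5⟩ := (h4.out 1 2 |>.1) h
      exact ⟨g, β, f, hg, hβ, ⟨e1, e2, e3, e4⟩, e5⟩
    tfae_have 3 → 1 := by
      rintro ⟨g, β, f, hg, hβ, ⟨e1, e2, e3, e4⟩, e5⟩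
      refine (h4.out 2 0 |>.1) ?_
      exact ⟨g, β, f, hg, hβ, e1, e2, e3, e4, e5⟩
    tfae_finish
  · intro β θ hβ hθ
    refine ⟨fun z hz0 hz => l4 z β θ hz0 hz hβ hθ, ?_⟩
    rintro g f hg ⟨e1, e2, e3, e4⟩
    refine optimal_all ?_ hg hβ e1 e2 e3 e4 hθ
    intro g β θ f hg hβ hf1 hf2 hf3 hf4 hθ
    exact optimal1 p_MONE p_VUNIQ hMI hMSA hg hβ hf1 hf2 hf3 hf4 hθ

end Pool.Agent.Results.MP_4e5e8a_nt.BenfordLindelof
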