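import Pool.Agent.DBF.Main

/-!
# The Lindelöf analogue of the de Bruijn-Newman constant

`H t z` is the classical function `H_t(z)` of de Bruijn and Newman; the definitions are in
`Pool.Agent.DBF.Defs`.

Unconditional results, for every `c > 0` and all times `s` with `A / (log X)² ≤ s ≤ c / log X`:
`FewS c` says that all but `X log X exp (-κ s (log X)²)` of the zeros of `H_s` with
`2 X ≤ Re z ≤ 4 X`, `|Im z| ≤ K`, counted with multiplicity, are real and simple, `ManyReal c`
that `H_s` has at least `(1 - ε) X log X / (2 π)` real simple zeros in `[2 X, 4 X]`, and `UniAll c`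
that for all `T` in `[X, 2 X]` outside a set of measure `X exp (-κ s (log X)²)`, at all times `t`
with `s ≤ t ≤ c / log T`, the zeros `z` of `H_t` with `|Re z - 2 T| ≤ exp (κ s (log X)²) t log T`,
`|Im z| ≤ K` are real and simple, with distances `(4 π + O(ε)) / log T`.

At all heights, for small `t > 0`: `RealZ c₁ c₂`
says that all zeros `z` of `H_t` with `exp (c₁ / t) ≤ Re z / 2 ≤ exp (c₂ / t)` and `|Im z| ≤ K` are
real, `Regular c₁ c₂` that they are real, simple and regularly spaced, with distances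
`(4 π + o(1)) / log (Re z)`. `ZeroFree c` says that for every `δ > 0` the zeta function has no zeros
with `Re s ≥ 1/2 + c/4 + δ` and large imaginary part. `Motion c` says that at the time
`t = c / log T` the zeros of `H_t` off the real line near `2 T` are, up to `o(1)`, the points
`2 γ ± 2 i (β - 1/2 - c/4)` with `ζ(β + i γ) = 0`. `FewZeros c` says that every closed disc which
does not meet the real line, translated by `2 T`, contains `o(log T)` zeros of `H_{c / log T}`.
`MuLe σ a` says that `ζ(σ + i T) = O(T^(a + ε))` for every `ε > 0`.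
-/

set_option autoImplicit false

namespace Pool.Agent.Results.MP_4e5e8a_nt.DBNFlow

open Pool.Agent.DBF

theorem result :
    (∀ c : ℝ, 0 < c → FewS c ∧ ManyReal c ∧ UniAll c) ∧
    ∃ Λ : ℝ, 0 ≤ Λ ∧ Λ ≤ 27 / 10 ∧
      (∀ c : ℝ, 0 ≤ c →
        ((Λ ≤ c ∧ ZeroFree c) ↔ ∀ c₁ c₂ : ℝ, c < c₁ → c₁ < c₂ → RealZ c₁ c₂) ∧
        ((Λ ≤ c ∧ ZeroFree c) ↔ ∀ c₁ c₂ : ℝ, c < c₁ → c₁ < c₂ → Regular c₁ c₂)) ∧
      (∀ c : ℝ, Λ < c → Motion c) ∧ (∀ c : ℝ, Λ ≤ c ↔ FewZeros c) ∧
      (∀ c : ℝ, 0 < c → (Λ ≤ c ↔ ∀ σ : ℝ, MuLe (1 / 2 + σ) (c / 16 + σ ^ 2 / c - σ / 2))) ∧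
      (LH ↔ Λ = 0) :=
  Pool.Agent.DBF.main

end Pool.Agent.Results.MP_4e5e8a_nt.DBNFlow
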