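import Pool.Agent.NBK.End

/-!
# The Lindelöf hypothesis, the moments of the zeta function and multiplication by the zeta
# function on Dirichlet polynomials

For `D(s) = ∑_{n ≤ N} c_n n ^ (-s)` and `I(F) = ∫ |F(1/2 + it)|² dt / (1/4 + t²)` let `K_a(N)` be
the least codimension of a subspace of `ℂ ^ N` on which `I(ζ D) ≤ N ^ a I(D)`.
(1) The growth of the zeta function: `ζ(1/2 + it) = O(|t| ^ (A + ε))` for all `ε > 0` if and only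
if `K_a(N) = 0` for all `a > 2A` and `N ≥ N₀(a)`, if and only if `K_a(N) = o(log N)` for all
`a > 2A`, if and only if an explicit sequence of rational numbers is `O(r ^ (2A - 1 + ε))`.
(2) The moments, for all real `k > 0` and `h ≥ 1`:
`∫_0^T |ζ(1/2 + it)| ^ (2k) dt = O(T ^ (h + ε))` for all `ε > 0` if and only if
`K_a(N) = O(N ^ (h - k a + ε))` for all `a, ε > 0`; for integers `k` also if and only if
`tr (G_N ^ k) = O(N ^ (h + ε))` for all `ε > 0`, where `G_N` is the Gram matrix of the functions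
`n h_n`, `n ≤ N`, in `L²(0, ∞)`, `h_n(t) = {1/(nt)} - {1/((n+1)t)}`.
(3) Unconditionally `N ^ (-2 a) I(D) ≤ I(ζ D) ≤ N ^ a I(D)` in codimension at most `N ^ q` for
every `q > 1 - 2 a`, and `I(D) ≤ 36 (N / M) I(ζ D)` if `c_n = 0` for `n < M`.
(4) The Lindelöf hypothesis is equivalent to `N ^ (-ε) I(D) ≤ I(ζ D) ≤ N ^ ε I(D)` for all `D` of
length `N ≥ N₀(ε)`, and to the same statement in terms of the Nyman–Beurling functions.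
-/

set_option autoImplicit false

open MeasureTheory Set Filter Topology

namespace Pool.Agent.Results.MP_4e5e8a_nt.NymanLindelof

/-- `I(F) = ∫ |F(1/2 + it)|² dt / (1/4 + t²)` -/
noncomputable def wnorm (F : ℂ → ℂ) : ℝ :=
  ∫ t : ℝ, ‖F (1 / 2 + t * Complex.I)‖ ^ 2 / (1 / 4 + t ^ 2)

/-- the Dirichlet polynomial `D(s) = ∑_{n ≤ N} c_n n ^ (-s)` -/
noncomputable def dpoly (N : ℕ) (c : Fin N → ℂ) (s : ℂ) : ℂ :=
  ∑ i : Fin N, c i * (((i : ℕ) + 1 : ℕ) : ℂ) ^ (-s)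

/-- `K_a(N)`, the least codimension of a subspace of `ℂ ^ N` on which `I(ζ D) ≤ N ^ a I(D)` -/
noncomputable def codim (a : ℝ) (N : ℕ) : ℕ :=
  sInf {d : ℕ | ∃ V : Submodule ℂ (Fin N → ℂ), Module.finrank ℂ V + d = N ∧ ∀ c ∈ V,
    wnorm (fun s => riemannZeta s * dpoly N c s) ≤ (N : ℝ) ^ a * wnorm (dpoly N c)}

/-- the Gram matrix in `L²(0, ∞)` of the functions `n h_n`, `n = 1, .., N`, where
`h_n(t) = {1/(nt)} - {1/((n+1)t)}` -/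
noncomputable def gram (N : ℕ) : Matrix (Fin N) (Fin N) ℝ :=
  Matrix.of fun i j => ∫ t in Ioi (0 : ℝ),
    ((((i : ℕ) + 1 : ℕ) : ℝ) * (Int.fract (1 / ((((i : ℕ) + 1 : ℕ) : ℝ) * t)) -
      Int.fract (1 / (((((i : ℕ) + 1 : ℕ) : ℝ) + 1) * t)))) *
    ((((j : ℕ) + 1 : ℕ) : ℝ) * (Int.fract (1 / ((((j : ℕ) + 1 : ℕ) : ℝ) * t)) -
      Int.fract (1 / (((((j : ℕ) + 1 : ℕ) : ℝ) + 1) * t))))

theorem result :
    -- (1) the growth of the zeta function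
    (∀ A : ℝ, 0 ≤ A → A < 1 / 2 → List.TFAE [
      (∀ ε : ℝ, 0 < ε → ∃ C : ℝ, ∀ t : ℝ,
        ‖riemannZeta (1 / 2 + t * Complex.I)‖ ≤ C * (1 + |t|) ^ (A + ε)),
      (∀ a : ℝ, 2 * A < a → ∃ N₀ : ℕ, ∀ N : ℕ, N₀ ≤ N → codim a N = 0),
      (∀ a : ℝ, 2 * A < a →
        Tendsto (fun N : ℕ => (codim a N : ℝ) / Real.log N) atTop (𝓝 0)),
      -- an explicit sequence of rational numbers
      (∀ ε : ℝ, 0 < ε → ∃ C : ℝ, ∀ r : ℕ, 1 ≤ r →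
        ∑ m ∈ Finset.Icc 1 (r ^ 3), (∑ i ∈ Finset.range r,
          (-1 : ℝ) ^ i * Int.fract ((m : ℝ) / ⌈(5 * r : ℝ) * (2 : ℝ) ^ (i / r : ℝ)⌉₊)) ^ 2 /
            (m : ℝ) ^ 2 ≤ C * (r : ℝ) ^ (2 * A - 1 + ε))]) ∧
    -- (2) the moments of the zeta function
    (∀ k h : ℝ, 0 < k → 1 ≤ h → (
      (∀ ε : ℝ, 0 < ε → ∃ C : ℝ, ∀ T : ℝ, 1 ≤ T →
        ∫ t in (0 : ℝ)..T, ‖riemannZeta (1 / 2 + t * Complex.I)‖ ^ (2 * k) ≤ C * T ^ (h + ε)) ↔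
      (∀ a q : ℝ, 0 < a → h - k * a < q →
        ∃ C : ℝ, ∀ N : ℕ, 1 ≤ N → (codim a N : ℝ) ≤ C * (N : ℝ) ^ q))) ∧
    (∀ k : ℕ, 1 ≤ k → ∀ h : ℝ, 1 ≤ h → (
      (∀ ε : ℝ, 0 < ε → ∃ C : ℝ, ∀ T : ℝ, 1 ≤ T →
        ∫ t in (0 : ℝ)..T, ‖riemannZeta (1 / 2 + t * Complex.I)‖ ^ (2 * k) ≤ C * T ^ (h + ε)) ↔
      (∀ ε : ℝ, 0 < ε → ∃ C : ℝ, ∀ N : ℕ, 1 ≤ N →
        ((gram N) ^ k).trace ≤ C * (N : ℝ) ^ (h + ε)))) ∧
    -- (3) unconditional bounds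
    (∀ a q : ℝ, 0 < a → 1 - 2 * a < q → ∃ N₀ : ℕ, ∀ N : ℕ, N₀ ≤ N →
      ∃ V : Submodule ℂ (Fin N → ℂ), (N : ℝ) - (N : ℝ) ^ q ≤ Module.finrank ℂ V ∧ ∀ c ∈ V,
        (N : ℝ) ^ (-(2 * a)) * wnorm (dpoly N c) ≤ wnorm (fun s => riemannZeta s * dpoly N c s) ∧
          wnorm (fun s => riemannZeta s * dpoly N c s) ≤ (N : ℝ) ^ a * wnorm (dpoly N c)) ∧
    (∀ (M N : ℕ) (c : ℕ → ℂ), 1 ≤ M → M ≤ N →
      wnorm (fun s => ∑ n ∈ Finset.Icc M N, c n * (n : ℂ) ^ (-s)) ≤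
        36 * (N / M : ℝ) * wnorm (fun s => riemannZeta s *
          ∑ n ∈ Finset.Icc M N, c n * (n : ℂ) ^ (-s))) ∧
    -- (4) the Lindelöf hypothesis
    List.TFAE [
      (∀ ε : ℝ, 0 < ε → ∃ C : ℝ, ∀ t : ℝ,
        ‖riemannZeta (1 / 2 + t * Complex.I)‖ ≤ C * (1 + |t|) ^ ε),
      (∀ ε : ℝ, 0 < ε → ∃ N₀ : ℕ, ∀ N : ℕ, N₀ ≤ N → ∀ c : Fin N → ℂ,
        (N : ℝ) ^ (-ε) * wnorm (dpoly N c) ≤ wnorm (fun s => riemannZeta s * dpoly N c s) ∧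
          wnorm (fun s => riemannZeta s * dpoly N c s) ≤ (N : ℝ) ^ ε * wnorm (dpoly N c)),
      -- the Gram matrices of the Nyman–Beurling functions
      (∀ ε : ℝ, 0 < ε → ∃ N₀ : ℕ, ∀ N : ℕ, N₀ ≤ N → ∀ c : ℕ → ℂ,
        (N : ℝ) ^ (-ε) * ∑ j ∈ Finset.Icc 1 N, ∑ k ∈ Finset.Icc 1 N,
              (c j * (starRingEnd ℂ) (c k)).re / (max j k : ℕ) ≤
            ∫ t in Ioi (0 : ℝ),
              ‖∑ k ∈ Finset.Icc 1 N, c k * ((Int.fract (1 / (k * t)) : ℝ) : ℂ)‖ ^ 2 ∧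
          ∫ t in Ioi (0 : ℝ),
              ‖∑ k ∈ Finset.Icc 1 N, c k * ((Int.fract (1 / (k * t)) : ℝ) : ℂ)‖ ^ 2 ≤
            (N : ℝ) ^ ε * ∑ j ∈ Finset.Icc 1 N, ∑ k ∈ Finset.Icc 1 N,
              (c j * (starRingEnd ℂ) (c k)).re / (max j k : ℕ)),
      -- the condition numbers of the Gram matrices of `n h_n`, `n ≤ N`
      (∀ ε : ℝ, 0 < ε → ∃ N₀ : ℕ, ∀ N : ℕ, N₀ ≤ N → ∀ a b : ℕ → ℂ,
        ∑ n ∈ Finset.Icc 1 N, ‖a n‖ ^ 2 = ∑ n ∈ Finset.Icc 1 N, ‖b n‖ ^ 2 →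
          ∫ t in Ioi (0 : ℝ), ‖∑ n ∈ Finset.Icc 1 N, a n * ((n *
              (Int.fract (1 / (n * t)) - Int.fract (1 / ((n + 1) * t))) : ℝ) : ℂ)‖ ^ 2 ≤
            (N : ℝ) ^ ε * ∫ t in Ioi (0 : ℝ), ‖∑ n ∈ Finset.Icc 1 N, b n * ((n *
              (Int.fract (1 / (n * t)) - Int.fract (1 / ((n + 1) * t))) : ℝ) : ℂ)‖ ^ 2),
      -- the traces of the powers of these Gram matrices
      (∀ k : ℕ, 1 ≤ k → (∀ ε : ℝ, 0 < ε → ∃ C : ℝ, ∀ N : ℕ, 1 ≤ N →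
          ((gram N) ^ k).trace ≤ C * (N : ℝ) ^ (1 + ε)))] :=
  ⟨Pool.Agent.NBK.growth_final2, Pool.Agent.NBK.real_final, Pool.Agent.NBL.moment_dict,
    Pool.Agent.NBK.two_final, Pool.Agent.NBL.part_b1, Pool.Agent.NBK.lindelof_final5⟩

end Pool.Agent.Results.MP_4e5e8a_nt.NymanLindelof
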