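import Pool.Agent.PertZ.FinL
import Pool.Agent.PertZ.TLR
import Pool.Agent.PertZ.FIK
import Pool.Agent.PertZ.BL
import Pool.Agent.PertZ.REP
import Pool.Agent.PertZ.SUPI
import Pool.Agent.PertZ.ZST
import Pool.Agent.PertZ.SMA
import Pool.Agent.PertZ.SBD
import Pool.Agent.PertZ.DET2
import Pool.Agent.PertZ.HOE
import Pool.Agent.PertZ.FLU
import Pool.Agent.PertZ.MEX
import Pool.Agent.PertZ.WOR1
import Pool.Agent.PertZ.WOR2
import Pool.Agent.PertZ.PQ2
import Pool.Agent.PertZ.PR1T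
import Pool.Agent.PertZ.PLOGT
import Pool.Agent.PertZ.PR2T
import Pool.Agent.PertZ.PEU
import Pool.Agent.PertZ.PFL
import Pool.Agent.PertZ.PRIT
import Pool.Agent.PertZ.FIL
import Pool.Agent.PertZ.BLV
import Pool.Agent.PertZ.REV
import Pool.Agent.PertZ.HP
import Pool.Agent.PertZ.DETX
import Pool.Agent.PertZ.GAP
import Pool.Agent.PertZ.GAPL
import Pool.Agent.PertZ.DETY
import Pool.Agent.PertZ.BLW
import Pool.Agent.PertZ.REVK
import Pool.Agent.PertZ.LPS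
import Pool.Agent.PertZ.TRF
import Pool.Agent.PertZ.GSF
import Pool.Agent.PertZ.GSB
import Pool.Agent.PertZ.GZL
import Pool.Agent.PertZ.BLG
import Pool.Agent.PertZ.GBK
import Pool.Agent.PertZ.GID
import Pool.Agent.PertQ.Asm
import Pool.Agent.PertQ.Old
import Pool.Agent.PertQ.JEN
import Pool.Agent.PertQ.CONT
import Pool.Agent.PertQ.KER
import Pool.Agent.PertQ.MAX
import Pool.Agent.PertQ.AVG
import Pool.Agent.PertQ.REFP
import Pool.Agent.PertQ.REFQ
import Pool.Agent.PertQ.INF1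
import Pool.Agent.PertQ.FINQ
import Pool.Agent.PertQ.HOLQ
import Pool.Agent.PertQ.TRNQ
import Pool.Agent.PertQ.CVTQ
import Pool.Agent.PertQ.UNIQ
import Pool.Agent.PertQ.BLGI
import Pool.Agent.PertQ.GSFI
import Pool.Agent.PertQ.ZSI
import Pool.Agent.PertQ.CVQ
import Pool.Agent.PertQ.GSFQ
import Pool.Agent.PertQ.ZSQ
import Pool.Agent.PertQ.IUB
import Pool.Agent.PertQ.GBI
import Pool.Agent.PertQ.GSBQ
import Pool.Agent.PertQ.SZQ
import Pool.Agent.PertQ.GK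
import Pool.Agent.PertQ.MVQ
import Pool.Agent.PertQ.BNDQ
import Pool.Agent.PertQ.LYA
import Pool.Agent.PertQ.SIX
import Pool.Agent.Ben.P_MPT
import Pool.Agent.Ben.P_TAIL

/-!
# The Lindelöf hypothesis under perturbation of the integers and of the primes
-/

set_option autoImplicit false

open Complex MeasureTheory ProbabilityTheory Set
open scoped ENNReal

namespace Pool.Agent.Results.MP_4e5e8a_nt.RandomPerturbation

/-- `X 0, X 1, ...` are independent exponential random variables of mean one on `(Ω, P)`. -/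
def ExpSeq {Ω : Type} [MeasurableSpace Ω] (P : Measure Ω) (X : ℕ → Ω → ℝ) : Prop :=
  (∀ n, Measurable (X n)) ∧ iIndepFun X P ∧ ∀ n, P.map (X n) = expMeasure 1

/-- Growth of order `q ∈ [1, ∞]`: `F t = O((1 + |t|) ^ (A + ε))` for every `ε > 0` if `q = ∞`, and
`(1/T ∫_T^{2T} ‖F t‖ ^ q dt) ^ (1/q) = O(T ^ (A + ε))` for every `ε > 0` if `q < ∞`. -/
def Grows (q : ℝ≥0∞) (A : ℝ) (F : ℝ → ℂ) : Prop :=
  ∀ ε : ℝ, 0 < ε → ∃ C : ℝ,
    if q = ⊤ then ∀ t : ℝ, ‖F t‖ ≤ C * (1 + |t|) ^ (A + ε)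
    else ∀ T : ℝ, 1 ≤ T →
      ∫ t in T..(2 * T), ‖F t‖ ^ q.toReal ≤ C * T ^ (1 + q.toReal * (A + ε))

/-- growth of zeta on the critical line; `ZetaGrowth ⊤ 0` is the Lindelöf hypothesis -/
def ZetaGrowth (q : ℝ≥0∞) (A : ℝ) : Prop :=
  Grows q A (fun t => riemannZeta (1 / 2 + t * I))

/-- the smoothed sum `∑ n ^ (-1/2 - iT) exp (-(log (n / N))² / 4)` over `n ≥ 1` -/
noncomputable def smoothSum (N T : ℝ) : ℂ :=
  ∑' n : ℕ, (Real.exp (-(Real.log ((n + 1 : ℕ) / N)) ^ 2 / 4) : ℂ) *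
    ((n + 1 : ℕ) : ℂ) ^ (-(1 / 2 + T * I) : ℂ)

/-- The smoothed sums of length `N = T ^ (b + o(1))` are `O(T ^ (a + ε))` for every `ε > 0`,
pointwise if `q = ∞` and in the mean of order `q` over `[T, 2T]` if `q < ∞`. -/
def SumLe (q : ℝ≥0∞) (b a : ℝ) : Prop :=
  ∀ ε : ℝ, 0 < ε → ∃ δ : ℝ, 0 < δ ∧ ∃ C : ℝ, ∀ T N : ℝ, 2 ≤ T →
    T ^ (b - δ) ≤ N → N ≤ T ^ (b + δ) →
      if q = ⊤ then ‖smoothSum N T‖ ≤ C * T ^ (a + ε)
      else ∫ t in T..(2 * T), ‖smoothSum N t‖ ^ q.toReal ≤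
        C * T ^ (1 + q.toReal * (a + ε))

/-- The Dirichlet series `∑ (lam n) ^ (-s)` over `n ≥ 1` converges for `Re s > 1` and `Z` is its
analytic continuation to `Re s > 1/2 - δ`, `s ≠ 1`, for some `δ > 0`. -/
def Continues (lam : ℕ → ℝ) (Z : ℂ → ℂ) : Prop := ∃ δ : ℝ, 0 < δ ∧
  DifferentiableOn ℂ Z {s : ℂ | 1 / 2 - δ < s.re ∧ s ≠ 1} ∧
  ∀ s : ℂ, 1 < s.re → HasSum (fun n : ℕ => (lam (n + 1) : ℂ) ^ (-s)) (Z s)

/-- The continuation has growth of order `q` with exponent `A` on the critical line. -/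
def Growth (q : ℝ≥0∞) (A : ℝ) (lam : ℕ → ℝ) : Prop := ∃ Z : ℂ → ℂ, Continues lam Z ∧
  Grows q A (fun t => Z (1 / 2 + t * I))

/-- The continuation is `O((1 + log (1 + |t|)) ^ (1 + ε))` at `1/2 + it` for every `ε > 0`. -/
def LogGrowth (lam : ℕ → ℝ) : Prop := ∃ Z : ℂ → ℂ, Continues lam Z ∧
  ∀ ε : ℝ, 0 < ε → ∃ C : ℝ, ∀ t : ℝ,
    ‖Z (1 / 2 + t * I)‖ ≤ C * (1 + Real.log (1 + |t|)) ^ (1 + ε)

/-- The Lindelöf hypothesis to the right of `θ` for the Beurling zeta function of the generalised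
primes `lam p`: the Euler product converges for `Re s > 1` and continues analytically to
`Re s > θ`, `s ≠ 1`, and the continuation is `O(|Im s| ^ ε)` on every half plane
`Re s ≥ σ > θ`. -/
def BeurlingLH (θ : ℝ) (lam : ℕ → ℝ) : Prop := ∃ Z : ℂ → ℂ,
  DifferentiableOn ℂ Z {s : ℂ | θ < s.re ∧ s ≠ 1} ∧
  (∀ s : ℂ, 1 < s.re → HasProd (fun p : Nat.Primes => (1 - (lam p : ℂ) ^ (-s))⁻¹) (Z s)) ∧
  ∀ σ : ℝ, θ < σ → ∀ ε : ℝ, 0 < ε → ∃ C : ℝ, ∀ s : ℂ, σ ≤ s.re → 1 ≤ |s.im| →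
    ‖Z s‖ ≤ C * |s.im| ^ ε

/-- zeta has only finitely many zeros in every half plane `Re s > σ > θ` -/
def FewZeros (θ : ℝ) : Prop := ∀ σ : ℝ, θ < σ → {s : ℂ | riemannZeta s = 0 ∧ σ < s.re}.Finite

/-- Sequences of independent exponential random variables exist. -/
theorem exists_seq : ∃ (Ω : Type) (_ : MeasurableSpace Ω) (P : Measure Ω)
    (_ : IsProbabilityMeasure P) (X : ℕ → Ω → ℝ), ExpSeq P X := by
  have : IsProbabilityMeasure (expMeasure 1) := isProbabilityMeasure_expMeasure zero_lt_one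
  obtain ⟨Ω, _, P, X, h1, h2, h3, h4⟩ := exists_iid ℕ (expMeasure 1)
  exact ⟨Ω, _, P, h4, X, h1, h3, fun i => (h2 i).map_eq⟩

open Pool.Agent.PertZ in
lemma grows_top {A : ℝ} {F : ℝ → ℂ} : Grows ⊤ A F ↔ ExpLe A F := by
  simp only [Grows, ExpLe, if_true]

open Pool.Agent.PertQ in
lemma grows_fin {q : ℝ≥0∞} (hq : q ≠ ⊤) (h1 : 1 ≤ q.toReal) {A : ℝ} {F : ℝ → ℂ}
    (hF : Continuous F) : Grows q A F ↔ ExpQ q.toReal A F := by
  rw [p_CVTQ.1 q.toReal A F h1 hF]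
  simp only [Grows, if_neg hq]

open Pool.Agent.DBN in
lemma sumLe_top {b a : ℝ} : SumLe ⊤ b a ↔ Pool.Agent.DBN.SumLe b a := by
  simp only [SumLe, Pool.Agent.DBN.SumLe, if_true]
  rfl

open Pool.Agent.PertQ in
lemma sumLe_fin {q : ℝ≥0∞} (hq : q ≠ ⊤) (h1 : 1 ≤ q.toReal) {b a : ℝ} :
    SumLe q b a ↔ SumQ q.toReal b a := by
  rw [p_CVTQ.2 q.toReal b a h1]
  simp only [SumLe, if_neg hq]
  rfl

open Pool.Agent.PertZ in
/-- functions which differ by `O(t ^ ε)` have the same exponents -/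
lemma transfer {F G : ℝ → ℂ} (h : ∀ ε : ℝ, 0 < ε → ∃ C : ℝ, ∀ t : ℝ,
    ‖F t - G t‖ ≤ C * (1 + |t|) ^ ε) {A : ℝ} (hA : 0 ≤ A) (hG : ExpLe A G) : ExpLe A F := by
  intro ε hε
  obtain ⟨C₁, h1⟩ := h ε hε
  obtain ⟨C₂, h2⟩ := hG ε hε
  refine ⟨|C₁| + C₂, fun t => ?_⟩
  have h3 : (1 : ℝ) ≤ 1 + |t| := by linarith [abs_nonneg t]
  have h4 : (1 + |t|) ^ ε ≤ (1 + |t|) ^ (A + ε) :=
    Real.rpow_le_rpow_of_exponent_le h3 (by linarith)
  have h5 : C₁ * (1 + |t|) ^ ε ≤ |C₁| * (1 + |t|) ^ (A + ε) :=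
    (mul_le_mul_of_nonneg_right (le_abs_self _) (by positivity)).trans
      (mul_le_mul_of_nonneg_left h4 (abs_nonneg _))
  calc ‖F t‖ = ‖(F t - G t) + G t‖ := by rw [sub_add_cancel]
    _ ≤ ‖F t - G t‖ + ‖G t‖ := norm_add_le _ _
    _ ≤ C₁ * (1 + |t|) ^ ε + C₂ * (1 + |t|) ^ (A + ε) := add_le_add (h1 t) (h2 t)
    _ ≤ _ := by rw [add_mul]; linarith

open Pool.Agent.PertZ in
/-- the perturbed zeta function is continuous on the critical line -/
lemma zlam_cont {lam : ℕ → ℝ} (h : ∀ Q : (ℝ → ℂ) → Prop, (∃ Z, ContinuesL lam Z ∧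
    Q (fun t => Z (1 / 2 + t * I))) ↔ Q (zlam lam)) : Continuous (zlam lam) := by
  obtain ⟨Z, hZ, -⟩ := (h (fun _ => True)).mpr trivial
  refine (h Continuous).mp ⟨Z, hZ, ?_⟩
  obtain ⟨δ, hδ, hZd, -⟩ := hZ
  rw [continuous_iff_continuousAt]
  intro t
  have hne : (1 / 2 + t * I : ℂ) ≠ 1 := by
    intro h1
    have := congrArg Complex.re h1
    simp at this
  have hopen : IsOpen {s : ℂ | 1 / 2 - δ < s.re ∧ s ≠ 1} :=
    (isOpen_lt continuous_const Complex.continuous_re).inter isOpen_ne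
  have hmem : (1 / 2 + t * I : ℂ) ∈ {s : ℂ | 1 / 2 - δ < s.re ∧ s ≠ 1} := by
    refine ⟨?_, hne⟩
    simp
    linarith
  have h1 : ContinuousAt Z (1 / 2 + t * I) :=
    (hZd.differentiableAt (hopen.mem_nhds hmem)).continuousAt
  have h2 : ContinuousAt (fun t : ℝ => (1 / 2 + t * I : ℂ)) t := by fun_prop
  exact ContinuousAt.comp (f := fun t : ℝ => (1 / 2 + t * I : ℂ)) h1 h2

lemma toReal_one_le {q : ℝ≥0∞} (h1 : 1 ≤ q) (hq : q ≠ ⊤) : 1 ≤ q.toReal := by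
  have := ENNReal.toReal_mono hq h1
  simpa using this

open Pool.Agent.PertZ Pool.Agent.PertQ in
/-- **The Lindelöf hypothesis under perturbation of the integers and of the primes** -/
theorem result :
    -- (I) independent exponential perturbations of the integers: the exponent `e q B`
    (∃ e : ℝ≥0∞ → ℝ → ℝ,
      (∀ B : ℝ, 1 / 2 < B → ∀ {Ω : Type} [MeasurableSpace Ω] (P : Measure Ω)
        [IsProbabilityMeasure P] (X : ℕ → Ω → ℝ), ExpSeq P X → ∀ᵐ ω ∂P, ∀ (q : ℝ≥0∞) (A : ℝ),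
          1 ≤ q → 0 ≤ A →
            (Growth q A (fun n => n * Real.exp (X n ω * (n : ℝ) ^ (-B))) ↔ e q B ≤ A)) ∧
      (∀ (q : ℝ≥0∞) (B A : ℝ), 1 ≤ q → 1 / 2 < B → 0 ≤ A →
        (e q B ≤ A ↔ ∀ b : ℝ, 0 ≤ b → b ≤ 1 → SumLe q b (A + max 0 (1 - B * b)))) ∧
      (∀ (q : ℝ≥0∞) (B A : ℝ), 1 ≤ q → 2 ≤ B → 0 ≤ A → (e q B ≤ A ↔ ZetaGrowth q A)) ∧
      -- unconditional bounds
      (∀ (k : ℕ) (B : ℝ), 1 ≤ k → 1 ≤ B →
        e (2 * k) B ≤ max 0 ((1 - 1 / B) / 2 - 1 / (2 * k))) ∧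
      (∀ B : ℝ, 1 ≤ B → e ⊤ B ≤ min ((1 - 1 / B) / 2) (1 / 6)) ∧
      (∀ (k : ℕ) (q : ℝ≥0∞) (B : ℝ), 1 ≤ k → 1 ≤ q → q ≤ 2 * k → 1 / 2 < B →
        (1 ≤ 1 / B + 1 / k ∨ k ≤ 2) → e q B = 0) ∧
      (∀ (q : ℝ≥0∞) (B : ℝ), 1 ≤ q → 1 / 2 < B → B ≤ 1 → e q B = 0) ∧
      (∀ B : ℝ, 1 / 2 < B → B ≤ 1 → ∀ {Ω : Type} [MeasurableSpace Ω] (P : Measure Ω)
        [IsProbabilityMeasure P] (X : ℕ → Ω → ℝ), ExpSeq P X → ∀ᵐ ω ∂P,
          LogGrowth (fun n => n * Real.exp (X n ω * (n : ℝ) ^ (-B)))) ∧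
      -- `e` is a nonnegative convex nonincreasing `1`-Lipschitz function of `1 / q`,
      -- nondecreasing and continuous in `B`
      (∀ (q r : ℝ≥0∞) (B B' : ℝ), 1 ≤ q → q ≤ r → 1 / 2 < B → B ≤ B' →
        0 ≤ e q B ∧ e q B ≤ e r B ∧ e r B ≤ e q B + (q⁻¹.toReal - r⁻¹.toReal) ∧
        e q B ≤ e q B' ∧ e q B' ≤ e q B + (1 - B / B')) ∧
      (∀ (p q r : ℝ≥0∞) (B θ : ℝ), 1 ≤ p → 1 ≤ q → 1 ≤ r → 1 / 2 < B → 0 ≤ θ → θ ≤ 1 →
        p⁻¹.toReal = (1 - θ) * q⁻¹.toReal + θ * r⁻¹.toReal →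
          e p B ≤ (1 - θ) * e q B + θ * e r B) ∧
      -- the Lindelöf hypothesis
      (ZetaGrowth ⊤ 0 ↔ ∀ B : ℝ, 1 / 2 < B → B < 2 → e ⊤ B = 0) ∧
      (ZetaGrowth ⊤ 0 ↔ ∀ (q : ℝ≥0∞) (B : ℝ), 1 ≤ q → q ≠ ⊤ → 1 / 2 < B → B < 2 →
        e q B = 0)) ∧
    -- (II) independent exponential perturbations of the primes
    (∀ {Ω : Type} [MeasurableSpace Ω] (P : Measure Ω) [IsProbabilityMeasure P]
      (X : ℕ → Ω → ℝ), ExpSeq P X → ∀ B : ℝ, 1 / 2 < B → ∀ᵐ ω ∂P, ∀ θ : ℝ, 1 / 2 ≤ θ → θ < 1 →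
        (BeurlingLH θ (fun n => n * Real.exp (X n ω * (n : ℝ) ^ (-B))) ↔ FewZeros θ)) ∧
    -- (III) the worst case: arbitrary perturbations of the integers
    (∀ B : ℝ, 1 / 2 < B → ∀ A : ℝ, (∀ d : ℕ → ℝ, (∀ n, 1 ≤ n → |d n| ≤ (n : ℝ) ^ (-B)) →
      Growth ⊤ A (fun n => n * Real.exp (d n))) ↔ (1 / (2 * B) ≤ A ∧ ZetaGrowth ⊤ A)) := by
  have zst := p_ZST
  have sma := p_SMA
  have bl := p_BL p_FIK
  have supi := p_SUPI p_REP
  have flu : P_FLU := @p_FLU @p_HOE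
  have gap : P_GAP := @p_GAP @flu @p_MEX sma
  have gapl : P_GAPL := @p_GAPL @flu @p_MEX sma
  have dety : P_DETY := p_DETY zst (p_BLV p_FIL) (p_HP p_REV) sma
  have pri : P_PRIT := @p_PRIT (p_PEU p_PQ2) (@p_PFL @flu @p_MEX p_TLR sma)
    (p_PR1T p_TLR p_PQ2 sma) (p_PR2T p_TLR bl supi p_PQ2 (p_PLOGT p_PQ2 zst) sma)
  -- the blocks of PertQ
  have ker : T_KER := p_KER p_CON
  have avg : T_AVG := p_AVG ker p_JEN p_CON
  have refq : T_REFQ := p_REFQ avg p_REFP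
  have inf1 : T_INF1 := p_INF1 avg
  have holq : T_HOLQ := p_HOLQ p_JEN
  have cvq : T_CVQ := p_CVQ p_JEN
  have gsfq : T_GSFQ := p_GSFQ cvq (p_GSFI p_BLGI zst sma)
  have zsq : T_ZSQ := p_ZSQ cvq (p_ZSI p_BLGI zst)
  have gzl : P_GZL := p_GZL p_BLG
  have gbi : T_GBI := p_GBI p_GBK (p_GID sma) sma (p_MAX ker) (p_IUB gzl) p_CON
  have gsbq : T_GSBQ := p_GSBQ gbi p_JEN p_CON p_UNIQ
  have szq : T_SZQ := p_SZQ Pool.Agent.Ben.p_MPT p_UNIQ p_JEN p_CON
  have mvq : T_MVQ := p_MVQ p_GK Pool.Agent.Ben.p_TAIL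
  have bndq : T_BNDQ := p_BNDQ refq mvq p_FINQ
  obtain ⟨ei, hei, himono, hitwo, hilaw, hibd, hione⟩ := old
  obtain ⟨er, her, hrbd, hrzero, hrlip, hrc1, hrc2⟩ := asm sma refq inf1 p_FINQ holq gsfq zsq gsbq
    szq bndq p_LYA (p_GSB p_GBK (p_GID sma) gzl) ei hei
  classical
  set e : ℝ≥0∞ → ℝ → ℝ := fun q B => if q = ⊤ then ei B else er q.toReal B with he
  have etop : ∀ B, e ⊤ B = ei B := fun B => by simp [he]
  have efin : ∀ q B, q ≠ ⊤ → e q B = er q.toReal B := fun q B hq => by simp [he, hq]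
  have hzl : (fun t : ℝ => riemannZeta (1 / 2 + t * I)) = Pool.Agent.CW.zl := rfl
  have hq2k : ∀ k : ℕ, (2 * (k : ℝ≥0∞)) ≠ ⊤ := fun k =>
    ENNReal.mul_ne_top (by norm_num) (ENNReal.natCast_ne_top k)
  have hq2k' : ∀ k : ℕ, (2 * (k : ℝ≥0∞)).toReal = 2 * (k : ℝ) := fun k => by
    simp [ENNReal.toReal_mul]
  have hnn : ∀ (q : ℝ≥0∞) (B : ℝ), 1 ≤ q → 1 / 2 < B → 0 ≤ e q B := by
    intro q B hq hB
    by_cases hqt : q = ⊤
    · rw [hqt, etop]
      exact (hei B hB).1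
    · rw [efin q B hqt]
      exact (her _ B (toReal_one_le hq hqt) hB).1
  have hlaw : ∀ (q : ℝ≥0∞) (B A : ℝ), 1 ≤ q → 1 / 2 < B → 0 ≤ A →
      (e q B ≤ A ↔ ∀ b : ℝ, 0 ≤ b → b ≤ 1 → SumLe q b (A + max 0 (1 - B * b))) := by
    intro q B A hq hB hA
    by_cases hqt : q = ⊤
    · rw [hqt, etop, hilaw B A hB hA]
      simp only [sumLe_top]
    · have h1 := toReal_one_le hq hqt
      rw [efin q B hqt, (her _ B h1 hB).2.2.1 A hA]
      simp only [sumLe_fin hqt h1]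
  have hzeta : ∀ (q : ℝ≥0∞) (B A : ℝ), 1 ≤ q → 2 ≤ B → 0 ≤ A →
      (e q B ≤ A ↔ ZetaGrowth q A) := by
    intro q B A hq hB hA
    by_cases hqt : q = ⊤
    · rw [hqt, etop, hitwo B A hB hA, ZetaGrowth, grows_top]
      rfl
    · have h1 := toReal_one_le hq hqt
      rw [efin q B hqt, (her _ B h1 (by linarith)).2.2.2.2.2.2 hB A hA, ZetaGrowth, hzl,
        grows_fin hqt h1 DET2_cont]
  have hmq : ∀ (q r : ℝ≥0∞) (B : ℝ), 1 ≤ q → q ≤ r → 1 / 2 < B → e q B ≤ e r B := by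
    intro q r B hq hqr hB
    by_cases hqt : q = ⊤
    · have : r = ⊤ := top_le_iff.mp (hqt ▸ hqr)
      rw [hqt, this]
    · have h1 := toReal_one_le hq hqt
      by_cases hrt : r = ⊤
      · rw [hrt, etop, efin q B hqt]
        exact (her _ B h1 hB).2.2.2.1
      · rw [efin q B hqt, efin r B hrt]
        exact (her _ B h1 hB).2.2.2.2.1 _ (ENNReal.toReal_mono hrt hqr)
  have hmB : ∀ (q : ℝ≥0∞) (B B' : ℝ), 1 ≤ q → 1 / 2 < B → B ≤ B' →
      e q B ≤ e q B' ∧ e q B' ≤ e q B + (1 - B / B') := by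
    intro q B B' hq hB hBB
    by_cases hqt : q = ⊤
    · rw [hqt, etop, etop]
      exact himono B B' hB hBB
    · rw [efin q B hqt, efin q B' hqt]
      exact (her _ B (toReal_one_le hq hqt) hB).2.2.2.2.2.1 B' hBB
  have hone : ∀ (q : ℝ≥0∞) (B : ℝ), 1 ≤ q → 1 / 2 < B → B ≤ 1 → e q B = 0 := by
    intro q B hq hB hB1
    refine le_antisymm ((hmq q ⊤ B hq le_top hB).trans ?_) (hnn q B hq hB)
    rw [etop, hione B hB hB1]
  have hLH : ZetaGrowth ⊤ 0 ↔ ∀ B : ℝ, 1 / 2 < B → B < 2 → e ⊤ B = 0 := by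
    constructor
    · intro h B hB hB2
      have h1 := (hzeta ⊤ 2 0 le_top le_rfl le_rfl).mpr h
      exact le_antisymm ((hmB ⊤ B 2 le_top hB hB2.le).1.trans h1) (hnn ⊤ B le_top hB)
    · intro h
      refine (hzeta ⊤ 2 0 le_top le_rfl le_rfl).mp (le_of_forall_pos_le_add fun δ hδ => ?_)
      have h3 : 0 < min 1 δ := lt_min one_pos hδ
      have h4 : min 1 δ ≤ δ := min_le_right _ _
      have h5 : min 1 δ ≤ 1 := min_le_left _ _
      have h6 := (hmB ⊤ (2 - min 1 δ) 2 le_top (by linarith) (by linarith)).2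
      rw [h (2 - min 1 δ) (by linarith) (by linarith)] at h6
      linarith
  have hinv : ∀ x : ℝ≥0∞, 1 ≤ x → x ≠ ⊤ → 0 < x⁻¹.toReal ∧ x⁻¹.toReal = 1 / x.toReal := by
    intro x hx hxt
    have h1 := toReal_one_le hx hxt
    have h2 : x⁻¹.toReal = 1 / x.toReal := by rw [ENNReal.toReal_inv, one_div]
    exact ⟨by rw [h2]; positivity, h2⟩
  have htop : (⊤ : ℝ≥0∞)⁻¹.toReal = 0 := by simp
  have hlip : ∀ (q r : ℝ≥0∞) (B : ℝ), 1 ≤ q → q ≤ r → 1 / 2 < B →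
      e r B ≤ e q B + (q⁻¹.toReal - r⁻¹.toReal) := by
    intro q r B hq hqr hB
    by_cases hqt : q = ⊤
    · have : r = ⊤ := top_le_iff.mp (hqt ▸ hqr)
      rw [hqt, this]
      simp
    · have h1 := toReal_one_le hq hqt
      obtain ⟨h2, h3⟩ := hrlip B q.toReal hB h1
      by_cases hrt : r = ⊤
      · rw [hrt, etop, efin q B hqt, htop, sub_zero, (hinv q hq hqt).2]
        exact h2
      · rw [efin q B hqt, efin r B hrt, (hinv q hq hqt).2, (hinv r (hq.trans hqr) hrt).2]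
        exact h3 _ (ENNReal.toReal_mono hrt hqr)
  refine ⟨⟨e, ?_, hlaw, hzeta, ?_, ?_, ?_, hone, ?_, ?_, ?_, hLH, ?_⟩, ?_, ?_⟩
  · -- the almost sure law
    intro B hB Ω _ P _ X hX
    have hX' : IsExpSeq P X := ⟨hX.1, hX.2.1, hX.2.2⟩
    filter_upwards [FINL_exp @p_MEX P X hX' hB, gap P X hX' B hB] with ω h1 h2
    intro q A hq hA
    have h2' : ∀ ε : ℝ, 0 < ε → ∃ C : ℝ, ∀ t : ℝ,
        ‖Dl B t - zlam (pert B (fun n => X n ω)) t‖ ≤ C * (1 + |t|) ^ ε := by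
      intro ε hε
      obtain ⟨C, hC⟩ := h2 ε hε
      exact ⟨C, fun t => by rw [norm_sub_rev]; exact hC t⟩
    refine (h1 (Grows q A)).trans ?_
    by_cases hqt : q = ⊤
    · rw [hqt, etop, grows_top, ← (hei B hB).2 A hA]
      exact ⟨fun h => transfer h2' hA h, fun h => transfer h2 hA h⟩
    · have h3 := toReal_one_le hq hqt
      rw [efin q B hqt, grows_fin hqt h3 (zlam_cont h1), ← (her _ B h3 hB).2.1 A hA]
      exact ⟨fun h => p_TRNQ _ A _ _ h3 hA h2' h, fun h => p_TRNQ _ A _ _ h3 hA h2 h⟩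
  · intro k B hk hB
    rw [efin _ B (hq2k k), hq2k' k]
    exact (hrbd k B hk hB).trans
      (max_le_max le_rfl (sub_le_sub_right (min_le_left _ _) _))
  · intro B hB
    rw [etop]
    exact le_min (hibd B hB) (le_sixth hilaw B (by linarith))
  · intro k q B hk hq hqk hB hor
    have hqt : q ≠ ⊤ := ne_top_of_le_ne_top (hq2k k) hqk
    rw [efin q B hqt]
    refine hrzero k _ B hk (toReal_one_le hq hqt) ?_ hB hor
    rw [← hq2k' k]
    exact ENNReal.toReal_mono (hq2k k) hqk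
  · intro B hB hB1 Ω _ P _ X hX
    have hX' : IsExpSeq P X := ⟨hX.1, hX.2.1, hX.2.2⟩
    filter_upwards [FINL_exp @p_MEX P X hX' hB, gapl P X hX' B hB] with ω h3 h4
    refine (h3 LogLe).mpr (fun ε hε => ?_)
    obtain ⟨C₁, hC₁⟩ := h4 ε hε
    obtain ⟨C₂, hC₂⟩ := dety B hB hB1
    refine ⟨C₁ + |C₂|, fun t => ?_⟩
    have h5 : 1 ≤ (1 + Real.log (1 + |t|)) ^ (1 + ε) := by
      apply Real.one_le_rpow _ (by linarith)
      have := Real.log_nonneg (show (1 : ℝ) ≤ 1 + |t| by linarith [abs_nonneg t])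
      linarith
    calc ‖zlam (pert B (fun n => X n ω)) t‖
        = ‖(zlam (pert B (fun n => X n ω)) t - Dl B t) + Dl B t‖ := by rw [sub_add_cancel]
      _ ≤ ‖zlam (pert B (fun n => X n ω)) t - Dl B t‖ + ‖Dl B t‖ := norm_add_le _ _
      _ ≤ C₁ * (1 + Real.log (1 + |t|)) ^ (1 + ε) + |C₂| :=
          add_le_add (hC₁ t) ((hC₂ t).trans (le_abs_self _))
      _ ≤ _ := by nlinarith [abs_nonneg C₂]
  · intro q r B B' hq hqr hB hBB
    exact ⟨hnn q B hq hB, hmq q r B hq hqr hB, hlip q r B hq hqr hB, hmB q B B' hq hB hBB⟩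
  · -- convexity
    intro p q r B θ hp hq hr hB hθ0 hθ1 hpqr
    have hθ1' : 0 ≤ 1 - θ := by linarith
    by_cases hpt : p = ⊤
    · subst hpt
      rw [htop] at hpqr
      by_cases hqt : q = ⊤
      · by_cases hrt : r = ⊤
        · rw [hqt, hrt]
          have : (1 - θ) * e ⊤ B + θ * e ⊤ B = e ⊤ B := by ring
          rw [this]
        · subst hqt
          rw [htop, mul_zero, zero_add] at hpqr
          have h1 : θ = 0 := by
            rcases mul_eq_zero.mp hpqr.symm with h | h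
            · exact h
            · exact absurd h (hinv r hr hrt).1.ne'
          rw [h1]
          simp
      · have h2 := (hinv q hq hqt).1
        have h3 : 0 ≤ θ * r⁻¹.toReal := mul_nonneg hθ0 ENNReal.toReal_nonneg
        have h4 : (1 - θ) * q⁻¹.toReal = 0 := by
          have := mul_nonneg hθ1' h2.le
          linarith
        have h5 : θ = 1 := by
          rcases mul_eq_zero.mp h4 with h | h
          · linarith
          · exact absurd h h2.ne'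
        have h6 : r = ⊤ := by
          by_contra hrt
          have h7 := (hinv r hr hrt).1
          rw [h5] at hpqr
          linarith
        rw [h5, h6]
        simp
    · have hp1 := toReal_one_le hp hpt
      obtain ⟨hpi, hpe⟩ := hinv p hp hpt
      by_cases hqt : q = ⊤
      · by_cases hrt : r = ⊤
        · rw [hqt, hrt, htop] at hpqr
          linarith
        · subst hqt
          obtain ⟨hri, hre⟩ := hinv r hr hrt
          rw [htop, mul_zero, zero_add, hpe, hre] at hpqr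
          have hθp : 0 < θ := by
            rcases hθ0.eq_or_lt with h | h
            · rw [← h, zero_mul] at hpqr
              rw [hpe, hpqr] at hpi
              exact absurd hpi (lt_irrefl _)
            · exact h
          have h1 := hrc2 B r.toReal p.toReal (1 - θ) hB (toReal_one_le hr hrt) hp1 hθ1'
            (by linarith) (by rw [hpqr]; ring)
          rw [efin p B hpt, efin r B hrt, etop]
          calc er p.toReal B ≤ (1 - (1 - θ)) * er r.toReal B + (1 - θ) * ei B := h1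
            _ = _ := by ring
      · obtain ⟨hqi, hqe⟩ := hinv q hq hqt
        by_cases hrt : r = ⊤
        · subst hrt
          rw [htop, mul_zero, add_zero, hpe, hqe] at hpqr
          have hθl : θ < 1 := by
            rcases hθ1.eq_or_lt with h | h
            · rw [h, sub_self, zero_mul] at hpqr
              rw [hpe, hpqr] at hpi
              exact absurd hpi (lt_irrefl _)
            · exact h
          have h1 := hrc2 B q.toReal p.toReal θ hB (toReal_one_le hq hqt) hp1 hθ0 hθl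
            (by rw [hpqr]; ring)
          rw [efin p B hpt, efin q B hqt, etop]
          exact h1
        · obtain ⟨hri, hre⟩ := hinv r hr hrt
          rw [hpe, hqe, hre] at hpqr
          rw [efin p B hpt, efin q B hqt, efin r B hrt]
          exact hrc1 B q.toReal r.toReal p.toReal θ hB (toReal_one_le hq hqt)
            (toReal_one_le hr hrt) hp1 hθ0 hθ1 (by rw [hpqr]; ring)
  · -- the Lindelöf hypothesis and the finite moments
    constructor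
    · intro h q B hq hqt hB hB2
      refine le_antisymm ((hmq q ⊤ B hq le_top hB).trans ?_) (hnn q B hq hB)
      exact (hLH.mp h B hB hB2).le
    · intro h
      refine hLH.mpr (fun B hB hB2 => ?_)
      refine le_antisymm (le_of_forall_pos_le_add fun δ hδ => ?_) (hnn ⊤ B le_top hB)
      have h1 : 1 ≤ max 1 (1 / δ) := le_max_left _ _
      have h2 : (1 : ℝ≥0∞) ≤ ENNReal.ofReal (max 1 (1 / δ)) := by
        rw [← ENNReal.ofReal_one]
        exact ENNReal.ofReal_le_ofReal h1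
      have h3 := hlip (ENNReal.ofReal (max 1 (1 / δ))) ⊤ B h2 le_top hB
      rw [h _ B h2 ENNReal.ofReal_ne_top hB hB2, htop, sub_zero,
        (hinv _ h2 ENNReal.ofReal_ne_top).2, ENNReal.toReal_ofReal (by linarith)] at h3
      refine h3.trans (add_le_add le_rfl ?_)
      rw [div_le_iff₀ (by linarith)]
      have h4 : 1 / δ ≤ max 1 (1 / δ) := le_max_right _ _
      rw [div_le_iff₀ hδ] at h4
      linarith
  · intro Ω _ P _ X hX B hB
    exact pri P X ⟨hX.1, hX.2.1, hX.2.2⟩ B hB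
  · intro B hB A
    constructor
    · intro h
      obtain ⟨d, hd, hdA⟩ := p_WOR2 B hB
      have h1 : 1 / (2 * B) ≤ A := hdA A ((FINL_det hB hd (ExpLe A)).mp (by
        obtain ⟨Z, hZ, hZA⟩ := h d hd
        exact ⟨Z, hZ, grows_top.mp hZA⟩))
      have hA : 0 ≤ A := le_trans (by positivity) h1
      refine ⟨h1, ?_⟩
      have h3 : ∀ n : ℕ, 1 ≤ n → |(fun _ => (0 : ℝ)) n| ≤ (n : ℝ) ^ (-B) := by
        intro n _
        simpa using Real.rpow_nonneg (Nat.cast_nonneg n) (-B)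
      have h4 := (FINL_det hB h3 (ExpLe A)).mp (by
        obtain ⟨Z, hZ, hZA⟩ := h (fun _ => 0) h3
        exact ⟨Z, hZ, grows_top.mp hZA⟩)
      rw [ZetaGrowth, grows_top]
      intro ε hε
      obtain ⟨C, hC⟩ := h4 ε hε
      refine ⟨C, fun t => ?_⟩
      have h5 := hC t
      have h6 : zlam (fun n : ℕ => (n : ℝ) * Real.exp 0) t = Pool.Agent.CW.zl t := by
        unfold zlam
        simp
      rwa [h6] at h5
    · rintro ⟨h1, h2⟩ d hd
      have hA : 0 ≤ A := le_trans (by positivity) h1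
      rw [ZetaGrowth, grows_top] at h2
      obtain ⟨Z, hZ, hZA⟩ := (FINL_det hB hd (ExpLe A)).mpr (p_WOR1 B A hB h1 h2 d hd)
      exact ⟨Z, hZ, grows_top.mpr hZA⟩

end Pool.Agent.Results.MP_4e5e8a_nt.RandomPerturbation
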